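import Pool.Agent.Y677.RSZ.FinInst
import Pool.Agent.Q25.TwoSq

set_option autoImplicit false

/-!
# Narrow progressions in ARBITRARY sets of `m` for which `m² + 1` and `m² + 3` are primes

Whatever the set `A` of natural numbers `m` for which `m² + 1` and `m² + 3` are both primes, all elements of `A` in
`(X, X + Y]`, with at most `ε Y / (log X) ^ 2` exceptions (an arbitrarily small proportion of the expected number of
these `m`), are terms of `l`-term arithmetic progressions contained in `A ∩ (X, X + Y]` whose difference is at most a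
fixed power of `log X`; here `X ^ θ ≤ Y ≤ X` and `θ > 0` is arbitrarily small. The same holds for sets of `m` for which
`m² + 1` and `m² + 3` have no prime factor up to a small power of `m`, and of these there are at least
`κ Y / (log X) ^ 2` in `(X, X + Y]`, even with a bounded number of prime factors of `m² + 1` and `m² + 3`.
-/

namespace Pool.Agent.Results.MP_2dba45_nt.NarrowProgressions

open Finset Filter

/-- `m` is a term of an `l`-term arithmetic progression contained in `A ∩ (u, v]`, with difference at most `D` -/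
def OnProgression (A : Set ℕ) (l : ℕ) (D : ℝ) (u v m : ℕ) : Prop :=
  ∃ n d : ℕ, 1 ≤ d ∧ (d : ℝ) ≤ D ∧ (∀ i < l, n + i * d ∈ A ∧ u < n + i * d ∧ n + i * d ≤ v) ∧ ∃ i < l, m = n + i * d

/-- all elements of `A` in `(u, v]` with at most `t` exceptions are terms of such progressions -/
def NearlyAll (A : Set ℕ) (l : ℕ) (D : ℝ) (u v : ℕ) (t : ℝ) : Prop :=
  ({m : ℕ | u < m ∧ m ≤ v ∧ m ∈ A ∧ ¬ OnProgression A l D u v m}.ncard : ℝ) ≤ t

/-- all prime factors of `m² + 1` and `m² + 3` are larger than `m ^ (1 / r)` -/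
def Rough (r m : ℕ) : Prop :=
  ∀ p : ℕ, p.Prime → (p ∣ m ^ 2 + 1 ∨ p ∣ m ^ 2 + 3) → (m : ℝ) ^ (1 / (r : ℝ)) < p

section aux
open Pool.Agent.Y677.RSZ
open Pool.Agent.TH977.PW (N)

open Classical in
lemma out_eq (A : Set ℕ) (l : ℕ) (D : ℝ) (u v : ℕ) :
    ({n : ℕ | u < n ∧ n ≤ v ∧ n ∈ A ∧ ¬ OnProgression A l D u v n}.ncard : ℝ) = (N (Outside A l D u v) u v : ℝ) := by
  unfold N
  rw [← Set.ncard_coe_finset]
  congr 2
  ext n
  rw [mem_coe, mem_filter, mem_Ioc]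
  constructor
  · rintro ⟨h1, h2, h3, h4⟩
    exact ⟨⟨h1, h2⟩, h3, h4⟩
  · rintro ⟨⟨h1, h2⟩, h3, h4⟩
    exact ⟨h1, h2, h3, h4⟩

end aux

/-- **Narrow progressions in arbitrary sets of `m` for which `m² + 1` and `m² + 3` are primes, or have no small prime
factor.** -/
theorem result (θ : ℝ) (hθ : 0 < θ) (hθ1 : θ ≤ 1) :
    -- prime values
    (∀ l : ℕ, 2 ≤ l → ∀ ε : ℝ, 0 < ε → ∃ B : ℕ, ∀ᶠ X : ℕ in atTop, ∀ Y : ℕ, (X : ℝ) ^ θ ≤ Y → Y ≤ X →
      ∀ A : Set ℕ, (∀ m ∈ A, (m ^ 2 + 1).Prime ∧ (m ^ 2 + 3).Prime) →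
        NearlyAll A l (Real.log X ^ B) X (X + Y) (ε * (Y / Real.log X ^ 2))) ∧
    -- rough values
    (∀ r : ℕ, 2 ≤ r → ∀ l : ℕ, 2 ≤ l → ∀ ε : ℝ, 0 < ε → ∃ B : ℕ, ∀ᶠ X : ℕ in atTop, ∀ Y : ℕ,
      (X : ℝ) ^ θ ≤ Y → Y ≤ X → ∀ A : Set ℕ, (∀ m ∈ A, Rough r m) →
        NearlyAll A l (Real.log X ^ B) X (X + Y) (ε * (Y / Real.log X ^ 2))) ∧
    -- there are many arguments with rough values having a bounded number of prime factors
    ∃ r₀ : ℕ, ∀ r : ℕ, r₀ ≤ r → ∃ κ : ℝ, 0 < κ ∧ ∀ᶠ X : ℕ in atTop, ∀ Y : ℕ, (X : ℝ) ^ θ ≤ Y → Y ≤ X →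
      κ * (Y / Real.log X ^ 2) ≤ ({m : ℕ | X < m ∧ m ≤ X + Y ∧ Rough r m ∧
        (m ^ 2 + 1).primeFactorsList.length ≤ r ∧ (m ^ 2 + 3).primeFactorsList.length ≤ r}.ncard : ℝ) := by
  classical
  have hsys := Pool.Agent.Q25.TwoSq.sys
  have key : ∀ r : ℕ, 2 ≤ r → ∀ l : ℕ, 2 ≤ l → ∀ ε : ℝ, 0 < ε → ∃ B : ℕ, ∀ᶠ X : ℕ in atTop, ∀ Y : ℕ,
      (X : ℝ) ^ θ ≤ Y → Y ≤ X → ∀ A : Set ℕ, (∀ m ∈ A, Rough r m) →
        NearlyAll A l (Real.log X ^ B) X (X + Y) (ε * (Y / Real.log X ^ 2)) := by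
    intro r hr l hl ε hε
    obtain ⟨B, hB⟩ := Pool.Agent.Y677.RSZ.narrow _ hsys θ hθ r hr l hl ε hε
    refine ⟨B, ?_⟩
    filter_upwards [hB] with X hX Y hXY hYX A hA
    have h1 := hX Y hXY hYX A (fun m hm => (Pool.Agent.Q25.TwoSq.rough_iff r m).2 (hA m hm))
    unfold NearlyAll
    rw [out_eq]
    rw [Fintype.card_fin] at h1
    calc _ ≤ ε * Y / Real.log X ^ 2 := h1
      _ = _ := by ring
  refine ⟨?_, key, ?_⟩
  · intro l hl ε hε
    obtain ⟨B, hB⟩ := key 2 le_rfl l hl ε hε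
    refine ⟨B, ?_⟩
    filter_upwards [hB, eventually_ge_atTop 2] with X hX hX2 Y hXY hYX A hA
    -- only the elements of `A` in the interval matter
    have h1 := hX Y hXY hYX {n | n ∈ A ∧ X < n ∧ n ≤ X + Y} (fun n hn => Pool.Agent.Q25.TwoSq.prime_rough 2 le_rfl n (by
      have := hn.2.1
      omega) (hA n hn.1).1 (hA n hn.1).2)
    unfold NearlyAll at h1 ⊢
    refine le_trans (le_of_eq ?_) h1
    congr 2
    ext n
    constructor
    · rintro ⟨h2, h3, h4, h5⟩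
      refine ⟨h2, h3, ⟨h4, h2, h3⟩, fun h6 => h5 ?_⟩
      obtain ⟨m, d, g1, g2, g3, g4⟩ := h6
      exact ⟨m, d, g1, g2, fun i hi => ⟨(g3 i hi).1.1, (g3 i hi).2⟩, g4⟩
    · rintro ⟨h2, h3, h4, h5⟩
      refine ⟨h2, h3, h4.1, fun h6 => h5 ?_⟩
      obtain ⟨m, d, g1, g2, g3, g4⟩ := h6
      exact ⟨m, d, g1, g2, fun i hi => ⟨⟨(g3 i hi).1, (g3 i hi).2⟩, (g3 i hi).2⟩, g4⟩
  · obtain ⟨r1, hr1, h1⟩ := Pool.Agent.TH977.PW.lower_input _ hsys θ hθ hθ1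
    refine ⟨r1, fun r hr => ?_⟩
    obtain ⟨κ, hκ, h⟩ := h1 r hr
    refine ⟨κ, hκ, ?_⟩
    filter_upwards [h] with X hX Y hXY hYX
    have h2 := hX Y hXY hYX
    rw [Fintype.card_fin] at h2
    have h3 : {m : ℕ | X < m ∧ m ≤ X + Y ∧ Rough r m ∧
        (m ^ 2 + 1).primeFactorsList.length ≤ r ∧ (m ^ 2 + 3).primeFactorsList.length ≤ r} =
        (((Ioc X (X + Y)).filter (fun m => Pool.Agent.TH977.PW.Rough
            (fun i : Fin 2 => Pool.Agent.TH464.PW.quad 1 0 (Pool.Agent.Q25.TwoSq.a i)) r m ∧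
          Pool.Agent.TH977.PW.Few
            (fun i : Fin 2 => Pool.Agent.TH464.PW.quad 1 0 (Pool.Agent.Q25.TwoSq.a i)) r m) : Finset ℕ) : Set ℕ) := by
      ext n
      rw [mem_coe, mem_filter, mem_Ioc, Pool.Agent.Q25.TwoSq.rough_iff, Pool.Agent.Q25.TwoSq.few_iff]
      constructor
      · rintro ⟨g1, g2, g3, g4⟩
        exact ⟨⟨g1, g2⟩, g3, g4⟩
      · rintro ⟨⟨g1, g2⟩, g3, g4⟩
        exact ⟨g1, g2, g3, g4⟩
    rw [h3, Set.ncard_coe_finset]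
    calc κ * (Y / Real.log X ^ 2) = κ * Y / Real.log X ^ 2 := by ring
      _ ≤ _ := h2

end Pool.Agent.Results.MP_2dba45_nt.NarrowProgressions
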